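import Pool.Agent.H542R3.ARW.Main
import Pool.Agent.H542R3.ARW.TaskLyap
import Pool.Agent.H542R3.ARW.TaskBellman
import Pool.Agent.H542R3.ARW.TaskWake
import Pool.Agent.H542R3.ARW.TaskJump

/-!
Activated random walk on a finite directed multigraph with sink. Diverting one edge to the sink
makes the final number of sleeping particles stochastically smaller, for every sleep rate and
every initial configuration of active particles.

Proof idea. (1) The Bellman value function `L` of the event that at least `k` particles sleep at
the end is invariant under every legal toppling (abelian property). (2) Waking up sleeping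
particles does not increase `L`; hence, at configurations where the site `v` is not asleep, the
value of an extra active particle at `v` is at least the average of its values at the neighbours
of `v`. (3) The difference of the values of the two graphs is the expected sum, over the uses of
the edge, of `L'` (particle put at `y`) minus `L'` (particle removed). The same expected sum with
the particle put at `v` does not depend on the toppling procedure; using for each `v` a procedure
in which `v` never sleeps while there are other active particles, (2) shows that it is
superharmonic in `v`; it vanishes at the sink, hence it is nonnegative.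
-/

namespace H542ARW

open Finset Filter

theorem probGE_eq {V E : Type} [Fintype V] [DecidableEq V] [Fintype E] [DecidableEq E]
    {src : E → V} {tgt : E → Option V} {lam : ℝ} {t : Option V → ℝ} (hlam : 0 < lam)
    (ht : Lyap src tgt t) (hne : ∀ v, (out src v).Nonempty) (k : ℕ) (L : Conf V → ℝ)
    (hL : IsVal src tgt lam (fun σ => k ≤ sleepers σ) L) (η : Conf V) :
    probGE src tgt lam k η = L η := by
  obtain ⟨h1, h2⟩ := Jump.tJump tDrift V E src tgt lam t hlam ht hne _ L hL η
  unfold probGE
  apply le_antisymm
  · exact ciSup_le h1
  · refine le_of_tendsto' h2 (fun n => ?_)
    exact le_ciSup (f := fun n : ℕ => probBy src tgt lam (fun σ => k ≤ sleepers σ) n η)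
      ⟨L η, by rintro x ⟨n, rfl⟩; exact h1 n⟩ n

end H542ARW

namespace Pool.Agent.Results.MP_df6f8e_pr.DivertedEdge

open H542ARW

/-- For every finite directed multigraph with sites `V`, edges `E` and a sink (`none`) reachable
from every site, every sleep rate `lam > 0`, every edge `e0` ending at a site `y`, every initial
configuration `η` of active particles and every `k`: the probability that activated random walk
on the graph with `e0` diverted to the sink ends with at least `k` sleeping particles is at most
the corresponding probability on the original graph. -/
theorem result (V E : Type) [Fintype V] [DecidableEq V] [Fintype E] [DecidableEq E]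
    (src : E → V) (tgt : E → Option V) (hG : ToSink src tgt) (lam : ℝ) (hlam : 0 < lam)
    (e0 : E) (y : V) (hy : tgt e0 = some y) (η : V → ℕ) (k : ℕ) :
    probGE src (Function.update tgt e0 none) lam k (fun v => Site.active (η v)) ≤
      probGE src tgt lam k (fun v => Site.active (η v)) := by
  obtain ⟨t, ht⟩ := tLyap V E src tgt hG
  have hne : ∀ v, (out src v).Nonempty := out_nonempty hG
  have hB := tBellman tComm tDrift
  have hW := tWake tMin tDrift
  have ht' := lyap_update ht e0
  obtain ⟨L, hL⟩ := exists_val hB hlam ht hne (fun σ => k ≤ sleepers σ)
  obtain ⟨L', hL'⟩ := exists_val hB hlam ht' hne (fun σ => k ≤ sleepers σ)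
  rw [probGE_eq hlam ht hne k L hL, probGE_eq hlam ht' hne k L' hL']
  exact main_le hB hW hlam ht hne e0 y hy k L L' hL hL' _ (fun v => by simp)

end Pool.Agent.Results.MP_df6f8e_pr.DivertedEdge
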